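import Mathlib

/-!
# Characters of finite `ℓ`-groups which kill a proper subgroup (helper248, for project PS)
-/

set_option autoImplicit false
set_option linter.all false

namespace Pool.Agent.Y248.PS

/-- a proper subgroup of a finite `ℓ`-group is killed by a nontrivial character of order `ℓ` -/
theorem exists_char {G κ : Type} [Group G] [Finite G] [Field κ] (ℓ : ℕ) [hl : Fact ℓ.Prime]
    {ζ : κ} (hζ : IsPrimitiveRoot ζ ℓ) {m : ℕ} (hG : Nat.card G = ℓ ^ m) (H : Subgroup G)
    (hH : H ≠ ⊤) :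
    ∃ χ : G →* κˣ, (∀ g, χ g ^ ℓ = 1) ∧ (∀ g ∈ H, χ g = 1) ∧ ∃ g, χ g ≠ 1 := by
  classical
  -- a subgroup of index `ℓ` containing `H`
  obtain ⟨n, hn, hHn⟩ : ∃ n ≤ m, Nat.card H = ℓ ^ n := by
    have h1 : Nat.card H ∣ ℓ ^ m := hG ▸ Subgroup.card_subgroup_dvd_card H
    exact (Nat.dvd_prime_pow hl.out).1 h1
  have hnm : n < m := by
    rcases hn.lt_or_eq with h | h
    · exact h
    · exact absurd (Subgroup.eq_top_of_card_eq H (by rw [hHn, hG, h])) hH
  obtain ⟨K, hK, hHK⟩ := Sylow.exists_subgroup_card_pow_prime_le (G := G) ℓ (n := n) (m := m - 1)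
    (by rw [hG]; exact pow_dvd_pow _ (Nat.sub_le _ _)) H hHn (by omega)
  have hm : m ≠ 0 := by omega
  have hidx : K.index = ℓ := by
    have h1 := K.card_mul_index
    rw [hK, hG] at h1
    have h2 : ℓ ^ m = ℓ ^ (m - 1) * ℓ := by rw [← pow_succ]; congr 1; omega
    rw [h2] at h1
    exact Nat.eq_of_mul_eq_mul_left (pow_pos hl.out.pos _) h1
  have hnorm : K.Normal := by
    apply Subgroup.normal_of_index_eq_minFac_card
    rw [hidx, hG, hl.out.pow_minFac hm]
  have hq : Nat.card (G ⧸ K) = ℓ := hidx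
  have hcyc : IsCyclic (G ⧸ K) := isCyclic_of_prime_card hq
  have hz : Nat.card (Subgroup.zpowers (hζ.toRootsOfUnity : κˣ)) = ℓ := by
    rw [Nat.card_zpowers]
    have h1 : IsPrimitiveRoot (hζ.toRootsOfUnity : κˣ) ℓ := by
      rw [← IsPrimitiveRoot.coe_units_iff]
      exact hζ
    exact h1.eq_orderOf.symm
  let e : (G ⧸ K) ≃* Subgroup.zpowers (hζ.toRootsOfUnity : κˣ) :=
    mulEquivOfCyclicCardEq (by rw [hq, hz])
  let χ : G →* κˣ :=
    (Subgroup.subtype _).comp (e.toMonoidHom.comp (QuotientGroup.mk' K))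
  have hker : ∀ g, χ g = 1 ↔ g ∈ K := by
    intro g
    have h1 : χ g = ((e (QuotientGroup.mk' K g) : Subgroup.zpowers (hζ.toRootsOfUnity : κˣ)) : κˣ) :=
      rfl
    rw [h1]
    constructor
    · intro h
      have h2 : e (QuotientGroup.mk' K g) = 1 := Subtype.ext h
      rw [EmbeddingLike.map_eq_one_iff] at h2
      exact (QuotientGroup.eq_one_iff g).1 h2
    · intro h
      have h2 : (QuotientGroup.mk' K g) = 1 := (QuotientGroup.eq_one_iff g).2 h
      rw [h2, map_one]; rfl
  refine ⟨χ, fun g => ?_, fun g hg => (hker g).2 (hHK hg), ?_⟩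
  · have h1 : (QuotientGroup.mk' K g) ^ ℓ = 1 := by
      rw [← hq]; exact pow_card_eq_one'
    rw [← map_pow, hker, ← QuotientGroup.eq_one_iff]
    exact h1
  · by_contra hc
    push Not at hc
    have h1 : K = ⊤ := by
      rw [eq_top_iff]
      intro g _
      exact (hker g).1 (hc g)
    rw [h1, Subgroup.index_top] at hidx
    exact hl.out.one_lt.ne hidx

end Pool.Agent.Y248.PS
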