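import Pool.Agent.Y248.PS.GunA
import Pool.Agent.Y248.PS.GrpA

/-!
# The Gauss valuation has only one prolongation (helper248, for project PS, task GUN)
-/

set_option autoImplicit false
set_option linter.all false

open Polynomial FF Pool.Agent.Y157.PS

namespace Pool.Agent.Y248.PS

section kummer

variable {ℓ : ℕ} [hl : Fact ℓ.Prime] {κ R M : Type} [Field κ] [IsAlgClosed κ] [CharZero κ]
  [Field R] [Field M] [Algebra κ R] [Algebra R M] [Algebra κ M] [IsScalarTower κ R M]

/-- Kummer element for a character of a level -/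
theorem exists_eigen (N : IntermediateField R M) [FiniteDimensional R N] [IsGalois R N]
    (χ : (N ≃ₐ[R] N) →* κˣ) :
    ∃ z : N, z ≠ 0 ∧ ∀ g : N ≃ₐ[R] N, g z = algebraMap κ N (χ g) * z := by
  have hc : groupCohomology.IsMulCocycle₁
      (fun g : N ≃ₐ[R] N => Units.map (algebraMap κ N).toMonoidHom (χ g)) := by
    intro g h
    ext
    rw [AlgEquiv.smul_units_def]
    simp only [map_mul, Units.val_mul, Units.coe_map, MonoidHom.coe_coe, RingHom.toMonoidHom_eq_coe]
    have h1 : g (algebraMap κ N (χ h : κ)) = algebraMap κ N (χ h : κ) := by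
      rw [IsScalarTower.algebraMap_apply κ R N, g.commutes]
    rw [h1, mul_comm]
  obtain ⟨β, hβ⟩ := groupCohomology.isMulCoboundary₁_of_isMulCocycle₁_of_aut_to_units _ hc
  refine ⟨β, β.ne_zero, fun g => ?_⟩
  have h1 := hβ g
  rw [div_eq_iff_eq_mul] at h1
  have h2 := congrArg Units.val h1
  rw [AlgEquiv.smul_units_def] at h2
  simpa using h2

end kummer

section main

variable {ℓ : ℕ} [hl : Fact ℓ.Prime] {κ R M : Type} [Field κ] [IsAlgClosed κ] [CharZero κ]
  [Field R] [Field M] [Algebra κ R] [Algebra R M] [Algebra κ M] [IsScalarTower κ R M]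
  {x : R} {B : Finset κ} {Y : M}

theorem level_inv (hconj : S_CONJ) (h : Cov ℓ κ R M x B Y) (V : ValuationSubring κ)
    (hrot : HasRot κ R M x B Y V) (O : ValuationSubring M) (hO : Gauss V (algebraMap R M x) O)
    (N : IntermediateField R M) (hN : Lev ℓ N) (γ : M ≃ₐ[R] M) (z : M) (hz : z ∈ N) :
    γ z ∈ O ↔ z ∈ O := by
  classical
  haveI := hN.fin
  haveI := hN.gal
  haveI := h.gal
  haveI : Normal R M := inferInstance
  haveI : Normal R N := inferInstance
  have hres : ∀ (γ : M ≃ₐ[R] M) (w : N), ((AlgEquiv.restrictNormalHom N γ w : N) : M) = γ w :=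
    fun γ w => AlgEquiv.restrictNormal_commutes γ N w
  let H : Subgroup (N ≃ₐ[R] N) :=
    { carrier := {g | ∀ w : N, ((g w : N) : M) ∈ O ↔ (w : M) ∈ O}
      mul_mem' := by
        intro a b ha hb w
        change ((a (b w) : N) : M) ∈ O ↔ _
        rw [ha (b w), hb w]
      one_mem' := by
        intro w
        exact Iff.rfl
      inv_mem' := by
        intro a ha w
        rw [← ha (a⁻¹ w)]
        have h1 : a (a⁻¹ w) = w := by
          rw [← AlgEquiv.mul_apply, mul_inv_cancel, AlgEquiv.one_apply]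
        rw [h1] }
  have hHtop : H = ⊤ := by
    by_contra hH
    obtain ⟨m, hm⟩ := hN.card
    have hcard : Nat.card (N ≃ₐ[R] N) = ℓ ^ m := by
      rw [IsGalois.card_aut_eq_finrank, hm]
    obtain ⟨ζ₀, hζ₀⟩ : ∃ ζ : κ, IsPrimitiveRoot ζ ℓ := by
      haveI : NeZero (ℓ : κ) := ⟨Nat.cast_ne_zero.2 hl.out.ne_zero⟩
      exact HasEnoughRootsOfUnity.exists_primitiveRoot κ ℓ
    obtain ⟨χ, hχl, hχH, g₀, hg₀⟩ := exists_char ℓ hζ₀ hcard H hH
    obtain ⟨z₀, hz₀, hgz₀⟩ := exists_eigen N χ
    -- the `ℓ`-th power is in `R`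
    obtain ⟨r, hr⟩ : z₀ ^ ℓ ∈ Set.range (algebraMap R N) := by
      rw [IsGalois.mem_range_algebraMap_iff_fixed]
      intro g
      rw [map_pow, hgz₀, mul_pow, ← map_pow, ← Units.val_pow_eq_pow_val, hχl, Units.val_one,
        map_one, one_mul]
    obtain ⟨P₀, Q₀, hQ₀, hQ₀x, hPQ⟩ := exists_frac h.rat r
    set X : M := algebraMap R M x with hXdef
    have hXP : ∀ P : κ[X], P ≠ 0 → aeval X P ≠ 0 := by
      intro P hP h0
      rw [hXdef, aeval_algebraMap_apply, map_eq_zero] at h0
      exact aeval_ne_zero h.rat hP h0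
    have hfix : ∀ (γ : M ≃ₐ[R] M) (P : κ[X]), γ (aeval X P) = aeval X P := by
      intro γ P
      rw [hXdef, aeval_algebraMap_apply, γ.commutes]
    have hfixc : ∀ (γ : M ≃ₐ[R] M) (c : κ), γ (algebraMap κ M c) = algebraMap κ M c := by
      intro γ c
      rw [IsScalarTower.algebraMap_apply κ R M, γ.commutes]
    -- the modified Kummer element
    set z₁ : M := (z₀ : M) * aeval X Q₀ with hz₁
    have hz₁0 : z₁ ≠ 0 := mul_ne_zero (by simpa using hz₀) (hXP _ hQ₀)
    set P : κ[X] := P₀ * Q₀ ^ (ℓ - 1) with hPdef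
    have hz₁P : z₁ ^ ℓ = aeval X P := by
      have h1 : ((z₀ : M)) ^ ℓ = algebraMap R M r := by
        have h2 := congrArg (algebraMap N M) hr
        rw [← IsScalarTower.algebraMap_apply] at h2
        rw [h2]; rfl
      have h4 : aeval X Q₀ ≠ 0 := hXP _ hQ₀
      have h3 : aeval X Q₀ ^ ℓ = aeval X Q₀ ^ (ℓ - 1) * aeval X Q₀ := by
        rw [← pow_succ]; congr 1; have := hl.out.pos; omega
      have h5 : ∀ S : κ[X], algebraMap R M (aeval x S) = aeval X S := by
        intro S; rw [hXdef, aeval_algebraMap_apply]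
      rw [hz₁, mul_pow, h1, hPQ, hPdef, map_div₀, map_mul, map_pow, h5, h5, h3]
      field_simp
    have hP0 : P ≠ 0 := by
      intro h0
      rw [h0, map_zero] at hz₁P
      exact hz₁0 (pow_eq_zero_iff hl.out.ne_zero |>.1 hz₁P)
    have hγz₁ : ∀ γ : M ≃ₐ[R] M,
        γ z₁ = algebraMap κ M (χ (AlgEquiv.restrictNormalHom N γ)) * z₁ := by
      intro γ
      rw [hz₁, map_mul, hfix, ← hres γ z₀, hgz₀, ← mul_assoc]
      rfl
    -- some multiplicity is prime to `ℓ`
    obtain ⟨b, hb⟩ : ∃ b, ¬ ℓ ∣ P.rootMultiplicity b := by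
      by_contra hc
      push Not at hc
      obtain ⟨Q, hQ⟩ := exists_pow hl.out.pos P hc
      have hQ0 : Q ≠ 0 := by
        rintro rfl
        rw [zero_pow hl.out.ne_zero] at hQ
        exact hP0 hQ.symm
      have h1 : (z₁ / aeval X Q) ^ ℓ = algebraMap κ M 1 := by
        rw [div_pow, hz₁P, ← hQ, map_pow, map_one,
          div_self (pow_ne_zero _ (hXP _ hQ0))]
      obtain ⟨c, -, hc'⟩ := root_const hl.out.pos h1
      rw [div_eq_iff (hXP _ hQ0)] at hc'
      obtain ⟨γ, hγ⟩ := AlgEquiv.restrictNormalHom_surjective (F := R) (K₁ := N) M g₀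
      have h2 := hγz₁ γ
      rw [hγ] at h2
      have h3 : γ z₁ = z₁ := by rw [hc', map_mul, hfix, hfixc]
      rw [h3] at h2
      have h4 : algebraMap κ M (χ g₀ : κ) = 1 := by
        have h5 : (algebraMap κ M (χ g₀ : κ) - 1) * z₁ = 0 := by linear_combination -h2
        rcases mul_eq_zero.1 h5 with h6 | h6
        · exact sub_eq_zero.1 h6
        · exact absurd h6 hz₁0
      rw [map_eq_one_iff _ (algebraMap κ M).injective] at h4
      exact hg₀ (Units.ext h4)
    -- orders at the places above `b`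
    have hord : ∀ W : Place κ M, 0 < W.ord (X - algebraMap κ M b) →
        (ℓ : ℤ) * W.ord z₁ = P.rootMultiplicity b * W.ord (X - algebraMap κ M b) := by
      intro W hW
      rw [← (ord_eval W hW hP0).2, ← hz₁P, W.ord_pow]
    by_cases hbB : b ∈ B
    · obtain ⟨O', c, W, hO', hcO', hcW, hWb, hcY⟩ := hrot b hbB
      -- `c` fixes `z₁`
      have hcz₁ : c z₁ = z₁ := by
        obtain ⟨δ, hδ⟩ := gauss_conj hconj h.rat V hO hO'
        have h1 : AlgEquiv.restrictNormalHom N (δ * c * δ⁻¹) ∈ H := by
          intro w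
          rw [hres]
          change δ (c (δ⁻¹ w)) ∈ O ↔ _
          rw [← hδ, hcO', hδ]
          have h2 : δ (δ⁻¹ (w : M)) = w := by
            rw [← AlgEquiv.mul_apply, mul_inv_cancel, AlgEquiv.one_apply]
          rw [h2]
        have h2 := hχH _ h1
        rw [map_mul, map_mul, map_mul, map_mul, map_inv, map_inv, mul_comm, inv_mul_cancel_left]
          at h2
        rw [hγz₁, h2, Units.val_one, map_one, one_mul]
      -- orders at `W`
      obtain ⟨hWX, hWY⟩ : W.ord (X - algebraMap κ M b) = ℓ ∧ W.ord Y = 1 := by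
        rcases h.loc' W with ⟨e, he, h1, h2⟩ | ⟨a, ha, h1⟩ | h1
        · have h3 : e = b := point_unique W (by
            have := hl.out.pos
            rw [h1]; exact_mod_cast this) hWb
          rw [← h3]; exact ⟨h1, h2⟩
        · have h3 : a = b := point_unique W (by rw [h1]; exact one_pos) hWb
          exact absurd hbB (h3 ▸ ha)
        · have h3 := not_pole W hWb
          omega
      have hn : W.ord z₁ = P.rootMultiplicity b := by
        have h1 := hord W hWb
        rw [hWX, mul_comm] at h1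
        exact mul_right_cancel₀ (by exact_mod_cast hl.out.ne_zero) h1
      set n := P.rootMultiplicity b with hndef
      have hY0 : Y ≠ 0 := by
        rintro rfl
        rw [W.ord_zero] at hWY
        exact zero_ne_one hWY
      -- the action of `c` on `Y`
      set Pi0 : κ[X] := ∏ e ∈ B, (Polynomial.X - C e) with hPi0
      have hYPi0 : Y ^ ℓ = aeval X Pi0 := by
        rw [h.eqn, hPi0, map_prod]
        exact Finset.prod_congr rfl fun e _ => by rw [map_sub, aeval_X, aeval_C]
      have hPi00 : Pi0 ≠ 0 := by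
        intro h0
        rw [h0, map_zero] at hYPi0
        exact hY0 (pow_eq_zero_iff hl.out.ne_zero |>.1 hYPi0)
      obtain ⟨ζ, hζ, hcYζ⟩ : ∃ ζ : κ, ζ ^ ℓ = 1 ∧ c Y = algebraMap κ M ζ * Y := by
        have h1 : (c Y / Y) ^ ℓ = algebraMap κ M 1 := by
          rw [div_pow, ← map_pow, hYPi0, hfix, div_self (hXP _ hPi00), map_one]
        obtain ⟨ζ, hζ, h2⟩ := root_const hl.out.pos h1
        exact ⟨ζ, hζ, by rw [← h2, div_mul_cancel₀ _ hY0]⟩
      have hζ1 : ζ ≠ 1 := by
        rintro rfl
        rw [map_one, one_mul] at hcYζ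
        exact hcY hcYζ
      have hζ0 : ζ ≠ 0 := by
        rintro rfl
        rw [zero_pow hl.out.ne_zero] at hζ
        exact zero_ne_one hζ
      -- the unit `t`
      set t : M := z₁ / Y ^ n with ht
      have ht0 : t ≠ 0 := div_ne_zero hz₁0 (pow_ne_zero _ hY0)
      have hWt : W.ord t = 0 := by
        rw [ht, W.ord_div hz₁0 (pow_ne_zero _ hY0), hn, W.ord_pow, hWY, mul_one, sub_self]
      have hct : c t * algebraMap κ M (ζ ^ n) = t := by
        rw [ht, map_div₀, hcz₁, map_pow, hcYζ, mul_pow, map_pow]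
        have h1 : algebraMap κ M ζ ≠ 0 := by rwa [Ne, map_eq_zero]
        field_simp
      -- the residue of `t` is a constant
      obtain ⟨a, ha⟩ : ∃ a : κ, W.red (t ^ ℓ) = W.red (algebraMap κ M a) := by
        obtain ⟨Q₁, hQ₁, hQ₁'⟩ :=
          Polynomial.exists_eq_pow_rootMultiplicity_mul_and_not_dvd P hP0 b
        rw [← hndef] at hQ₁
        have hPi0b : Pi0 = (Polynomial.X - C b) * ∏ e ∈ B.erase b, (Polynomial.X - C e) := by
          rw [hPi0, ← Finset.mul_prod_erase _ _ hbB]
        set Pj : κ[X] := ∏ e ∈ B.erase b, (Polynomial.X - C e) with hPj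
        have hPj0 : Pj ≠ 0 := by
          intro h0; rw [h0, mul_zero] at hPi0b; exact hPi00 hPi0b
        have hPjb : Pj.eval b ≠ 0 := by
          rw [hPj, eval_prod, Finset.prod_ne_zero_iff]
          intro e he
          rw [eval_sub, eval_X, eval_C]
          exact sub_ne_zero.2 (Finset.ne_of_mem_erase he).symm
        have hXb : X - algebraMap κ M b ≠ 0 := by
          intro h0; rw [h0, W.ord_zero] at hWb; exact lt_irrefl _ hWb
        have h1 : t ^ ℓ * aeval X Pj ^ n = aeval X Q₁ := by
          rw [ht, div_pow, ← pow_mul, mul_comm n ℓ, pow_mul, hYPi0, hz₁P]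
          conv_lhs => rw [hQ₁, hPi0b]
          rw [map_mul, map_mul, map_pow, map_sub, aeval_X, aeval_C, mul_pow]
          have h2 := hXP _ hPj0
          field_simp
        have h2 : W.Reg (t ^ ℓ) := Or.inr (by rw [W.ord_pow, hWt, mul_zero])
        have h3 := red_eval W hWb (Pj ^ n)
        have h4 := red_eval W hWb Q₁
        rw [map_pow] at h3
        have h5 : W.red (t ^ ℓ) * W.red (algebraMap κ M ((Pj ^ n).eval b)) =
            W.red (algebraMap κ M (Q₁.eval b)) := by
          rw [← h3.2, ← W.red_mul h2 h3.1, h1, h4.2]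
        have h6 : (Pj ^ n).eval b ≠ 0 := by
          rw [eval_pow]; exact pow_ne_zero _ hPjb
        refine ⟨Q₁.eval b / (Pj ^ n).eval b, ?_⟩
        have h7 : W.red (algebraMap κ M ((Pj ^ n).eval b)) ≠ 0 :=
          W.red_ne_zero (by rwa [Ne, map_eq_zero]) (W.ord_const h6)
        apply mul_right_cancel₀ h7
        rw [h5, ← W.red_mul (W.reg_const _) (W.reg_const _), ← map_mul, div_mul_cancel₀ _ h6]
      have htR : W.Reg t := Or.inr hWt.ge
      obtain ⟨d, -, hd⟩ : ∃ d : κ, d ^ ℓ = a ∧ W.red t = algebraMap κ W.RF d := by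
        apply root_const hl.out.pos
        rw [← W.red_pow htR, ha]; rfl
      have hd' : W.red t = W.red (algebraMap κ M d) := hd
      have hct2 : W.Reg (c t) := Or.inr (by rw [hcW, hWt])
      have hctr : W.red (c t) = W.red t := by
        rw [hd']
        have h1 : W.red (t - algebraMap κ M d) = 0 := by
          rw [W.red_sub htR (W.reg_const d), hd', sub_self]
        have hreg : W.Reg (t - algebraMap κ M d) := by
          rw [sub_eq_add_neg]
          exact W.reg_add htR (W.reg_neg (W.reg_const d))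
        have hreg' : W.Reg (c t - algebraMap κ M d) := by
          rw [sub_eq_add_neg]
          exact W.reg_add hct2 (W.reg_neg (W.reg_const d))
        have h2 : W.red (c t - algebraMap κ M d) = 0 := by
          rw [W.red_eq_zero_iff hreg']
          rw [W.red_eq_zero_iff hreg] at h1
          have h3 : c (t - algebraMap κ M d) = c t - algebraMap κ M d := by
            rw [map_sub, hfixc]
          rcases h1 with h1 | h1
          · left; rw [← h3, h1, map_zero]
          · right; rw [← h3, hcW]; exact h1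
        rw [W.red_sub hct2 (W.reg_const d)] at h2
        exact sub_eq_zero.1 h2
      have h8 : ζ ^ n = 1 := by
        have h1 := congrArg W.red hct
        rw [W.red_mul hct2 (W.reg_const _), hctr] at h1
        have h2 : W.red t ≠ 0 := W.red_ne_zero ht0 hWt
        have h3 : W.red (algebraMap κ M (ζ ^ n)) = 1 := by
          apply mul_left_cancel₀ h2
          rw [h1, mul_one]
        have h4 : algebraMap κ W.RF (ζ ^ n) = 1 := h3
        rwa [map_eq_one_iff _ (algebraMap κ W.RF).injective] at h4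
      have h9 : orderOf ζ ∣ Nat.gcd ℓ n :=
        Nat.dvd_gcd (orderOf_dvd_of_pow_eq_one hζ) (orderOf_dvd_of_pow_eq_one h8)
      have h10 : Nat.gcd ℓ n = 1 := (hl.out.coprime_iff_not_dvd).2 hb
      rw [h10, Nat.dvd_one, orderOf_eq_one_iff] at h9
      exact hζ1 h9
    · -- unramified point
      obtain ⟨W, hWb⟩ := exists_place h b
      rw [← hXdef] at hWb
      have hW1 : W.ord (X - algebraMap κ M b) = 1 := by
        rcases h.loc' W with ⟨e, he, h1, h2⟩ | ⟨a, ha, h1⟩ | h1
        · have h3 : e = b := point_unique W (by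
            have := hl.out.pos
            rw [h1]; exact_mod_cast this) hWb
          exact absurd (h3 ▸ he) hbB
        · have h3 : a = b := point_unique W (by rw [h1]; exact one_pos) hWb
          rw [← h3]; exact h1
        · have h3 := not_pole W hWb
          have h4 : W.ord X = -1 := h1
          omega
      have h1 := hord W hWb
      rw [hW1, mul_one] at h1
      apply hb
      have h2 : (ℓ : ℤ) ∣ (P.rootMultiplicity b : ℤ) := ⟨_, h1.symm⟩
      exact_mod_cast h2
  have h1 : AlgEquiv.restrictNormalHom N γ ∈ H := by rw [hHtop]; trivial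
  have h2 := h1 ⟨z, hz⟩
  rwa [hres] at h2

end main

theorem gun : S_CONJ → S_GUN := by
  intro hconj ℓ hl κ R M _ _ _ _ _ _ _ _ _ x B Y h V hrot O O' hO hO'
  haveI := h.gal
  obtain ⟨γ, hγ⟩ := gauss_conj hconj h.rat V hO hO'
  ext z
  obtain ⟨N, hz, hN⟩ := h.pow z
  rw [hγ z, level_inv hconj h V hrot O hO N hN γ z hz]

end Pool.Agent.Y248.PS
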