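import Pool.Agent.Y157.PS.Stm

/-!
# Places and Gauss valuations: auxiliary facts (helper248, for project PS)
-/

set_option autoImplicit false
set_option linter.all false

open Polynomial FF Pool.Agent.Y157.PS

namespace Pool.Agent.Y248.PS

section place

variable {κ M : Type} [Field κ] [Field M] [Algebra κ M]

/-- regularity and residue of a polynomial at a place above `b` -/
theorem red_eval (W : Place κ M) {X : M} {b : κ} (h : 0 < W.ord (X - algebraMap κ M b))
    (P : κ[X]) : W.Reg (aeval X P) ∧ W.red (aeval X P) = W.red (algebraMap κ M (P.eval b)) := by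
  have hX : W.Reg X := by
    have h1 : X = (X - algebraMap κ M b) + algebraMap κ M b := by ring
    rw [h1]
    exact W.reg_add (Or.inr h.le) (W.reg_const b)
  have hXr : W.red X = W.red (algebraMap κ M b) := by
    have h1 : W.red (X - algebraMap κ M b) = 0 := (W.red_eq_zero_iff (Or.inr h.le)).2 (Or.inr h)
    rw [W.red_sub hX (W.reg_const b)] at h1
    exact sub_eq_zero.1 h1
  induction P using Polynomial.induction_on' with
  | add p q hp hq =>
    rw [map_add, eval_add, map_add]
    refine ⟨W.reg_add hp.1 hq.1, ?_⟩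
    rw [W.red_add hp.1 hq.1, W.red_add (W.reg_const _) (W.reg_const _), hp.2, hq.2]
  | monomial n a =>
    rw [aeval_monomial, eval_monomial, map_mul, map_pow]
    have hpow : ∀ n : ℕ, W.Reg (X ^ n) := by
      intro n
      induction n with
      | zero => rw [pow_zero]; exact W.reg_one
      | succ n ih => rw [pow_succ]; exact W.reg_mul ih hX
    refine ⟨W.reg_mul (W.reg_const a) (hpow n), ?_⟩
    have h2 : W.Reg (algebraMap κ M b ^ n) := by rw [← map_pow]; exact W.reg_const _
    rw [W.red_mul (W.reg_const a) (hpow n), W.red_mul (W.reg_const a) h2, W.red_pow hX,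
      W.red_pow (W.reg_const b), hXr]

/-- order of a polynomial at a place above `b` -/
theorem ord_eval (W : Place κ M) {X : M} {b : κ} (h : 0 < W.ord (X - algebraMap κ M b))
    {P : κ[X]} (hP : P ≠ 0) : aeval X P ≠ 0 ∧
      W.ord (aeval X P) = P.rootMultiplicity b * W.ord (X - algebraMap κ M b) := by
  have hX0 : X - algebraMap κ M b ≠ 0 := by
    intro h0; rw [h0, W.ord_zero] at h; exact lt_irrefl _ h
  obtain ⟨Q, hQ, hQ'⟩ := Polynomial.exists_eq_pow_rootMultiplicity_mul_and_not_dvd P hP b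
  have hQb : Q.eval b ≠ 0 := by
    intro h0; exact hQ' (dvd_iff_isRoot.2 h0)
  obtain ⟨h1, h2⟩ := red_eval W h Q
  have h3 : W.red (aeval X Q) ≠ 0 := by
    rw [h2]
    exact W.red_ne_zero (by rwa [Ne, map_eq_zero]) (W.ord_const hQb)
  rw [Ne, W.red_eq_zero_iff h1] at h3
  push Not at h3
  have h4 : W.ord (aeval X Q) = 0 := le_antisymm h3.2 ((W.reg_iff h3.1).1 h1)
  have h5 : aeval X P = (X - algebraMap κ M b) ^ P.rootMultiplicity b * aeval X Q := by
    conv_lhs => rw [hQ]
    rw [map_mul, map_pow, map_sub, aeval_X, aeval_C]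
  refine ⟨?_, ?_⟩
  · rw [h5]; exact mul_ne_zero (pow_ne_zero _ hX0) h3.1
  · rw [h5, W.ord_mul (pow_ne_zero _ hX0) h3.1, h4, add_zero, W.ord_pow]

/-- a place lies above at most one point -/
theorem point_unique (W : Place κ M) {X : M} {a b : κ} (ha : 0 < W.ord (X - algebraMap κ M a))
    (hb : 0 < W.ord (X - algebraMap κ M b)) : a = b := by
  by_contra hab
  have h1 := (red_eval W ha (Polynomial.X - C b)).2
  rw [map_sub, aeval_X, aeval_C, eval_sub, eval_X, eval_C,
    (W.red_eq_zero_iff (Or.inr hb.le)).2 (Or.inr hb)] at h1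
  have h2 : W.red (algebraMap κ M (a - b)) ≠ 0 :=
    W.red_ne_zero (by rw [Ne, map_eq_zero]; exact sub_ne_zero.2 hab)
      (W.ord_const (sub_ne_zero.2 hab))
  exact h2 h1.symm

/-- a finite point is not a pole of the coordinate -/
theorem not_pole (W : Place κ M) {X : M} {b : κ} (hb : 0 < W.ord (X - algebraMap κ M b)) :
    0 ≤ W.ord X := by
  have h1 := (red_eval W hb Polynomial.X).1
  rw [aeval_X] at h1
  rcases h1 with h | h
  · rw [h, W.ord_zero]
  · exact h

end place

section roots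

/-- over an algebraically closed field a polynomial with multiplicities divisible by `ℓ` is an
`ℓ`-th power -/
theorem exists_pow {κ : Type} [Field κ] [IsAlgClosed κ] {ℓ : ℕ} (hl : 0 < ℓ) (P : κ[X])
    (h : ∀ b, ℓ ∣ P.rootMultiplicity b) : ∃ Q : κ[X], Q ^ ℓ = P := by
  classical
  obtain ⟨c, hc⟩ := IsAlgClosed.exists_pow_nat_eq P.leadingCoeff hl
  have h1 : P = C P.leadingCoeff * ∏ b ∈ P.roots.toFinset, (X - C b) ^ P.rootMultiplicity b := by
    have h2 := (IsAlgClosed.splits P).eq_prod_roots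
    conv_lhs => rw [h2]
    rw [Finset.prod_multiset_map_count]
    simp only [count_roots]
  refine ⟨C c * ∏ b ∈ P.roots.toFinset, (X - C b) ^ (P.rootMultiplicity b / ℓ), ?_⟩
  conv_rhs => rw [h1]
  rw [mul_pow, ← C_pow, hc, ← Finset.prod_pow]
  congr 1
  refine Finset.prod_congr rfl fun b _ => ?_
  rw [← pow_mul, Nat.div_mul_cancel (h b)]

/-- roots of unity are constants -/
theorem root_const {κ M : Type} [Field κ] [IsAlgClosed κ] [Field M] [Algebra κ M] {ℓ : ℕ}
    (hl : 0 < ℓ) {t : M} {a : κ} (h : t ^ ℓ = algebraMap κ M a) :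
    ∃ b : κ, b ^ ℓ = a ∧ t = algebraMap κ M b := by
  have h1 : IsIntegral κ t := by
    refine ⟨X ^ ℓ - C a, monic_X_pow_sub_C a hl.ne', ?_⟩
    rw [← aeval_def, map_sub, map_pow, aeval_X, aeval_C, h, sub_self]
  obtain ⟨b, hb⟩ : ∃ b : κ, algebraMap κ M b = t := by
    have h2 := IsAlgClosed.degree_eq_one_of_irreducible κ (minpoly.irreducible h1)
    have h3 : Algebra.IsAlgebraic κ κ := inferInstance
    exact minpoly.mem_range_of_degree_eq_one κ t h2
  refine ⟨b, ?_, hb.symm⟩
  rw [← hb, ← map_pow] at h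
  exact (algebraMap κ M).injective h

end roots

section gauss

variable {κ R M : Type} [Field κ] [Field R] [Field M] [Algebra κ R] [Algebra R M] [Algebra κ M]
  [IsScalarTower κ R M]

/-- every nonzero polynomial is a constant times a polynomial of content one -/
theorem exists_content (V : ValuationSubring κ) {P : κ[X]} (hP : P ≠ 0) :
    ∃ c : κ, c ≠ 0 ∧ ∃ P₁ : κ[X], P = C c * P₁ ∧ (∀ n, P₁.coeff n ∈ V) ∧
      ∃ n, IsU V (P₁.coeff n) := by
  obtain ⟨n, hn, hmax⟩ := P.support.exists_max_image (fun n => V.valuation (P.coeff n))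
    (Polynomial.support_nonempty.2 hP)
  have hc : P.coeff n ≠ 0 := Polynomial.mem_support_iff.1 hn
  refine ⟨P.coeff n, hc, C (P.coeff n)⁻¹ * P, ?_, fun k => ?_, n, ?_⟩
  · rw [← mul_assoc, ← C_mul, mul_inv_cancel₀ hc, C_1, one_mul]
  · rw [coeff_C_mul, ← V.valuation_le_one_iff, map_mul, map_inv₀]
    by_cases hk : k ∈ P.support
    · have h1 := hmax k hk
      have h2 : V.valuation (P.coeff n) ≠ 0 := by rwa [Ne, map_eq_zero]
      rw [mul_comm, ← div_eq_mul_inv]
      exact div_le_one_of_le₀ h1 zero_le'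
    · rw [Polynomial.notMem_support_iff.1 hk, map_zero, mul_zero]
      exact zero_le_one
  · rw [coeff_C_mul, inv_mul_cancel₀ hc]
    exact ⟨one_ne_zero, V.one_mem, by rw [inv_one]; exact V.one_mem⟩

theorem IsU.mul_mem_iff {K : Type} [Field K] {O : ValuationSubring K} {u z : K} (hu : IsU O u) :
    u * z ∈ O ↔ z ∈ O := by
  constructor
  · intro h
    have h1 := O.mul_mem _ _ hu.2.2 h
    rwa [← mul_assoc, inv_mul_cancel₀ hu.1, one_mul] at h1
  · intro h
    exact O.mul_mem _ _ hu.2.1 h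

theorem IsU.inv {K : Type} [Field K] {O : ValuationSubring K} {u : K} (hu : IsU O u) :
    IsU O u⁻¹ :=
  ⟨inv_ne_zero hu.1, hu.2.2, by rw [inv_inv]; exact hu.2.1⟩

theorem exists_frac {x : R} (hx : RatF κ x) (z : R) :
    ∃ P Q : κ[X], Q ≠ 0 ∧ aeval x Q ≠ 0 ∧ z = aeval x P / aeval x Q := by
  have h1 : z ∈ IntermediateField.adjoin κ {x} := by rw [hx.gen]; trivial
  rw [IntermediateField.mem_adjoin_simple_iff] at h1
  obtain ⟨P, Q, h⟩ := h1
  by_cases hQ : aeval x Q = 0
  · refine ⟨0, 1, one_ne_zero, ?_, ?_⟩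
    · rw [map_one]; exact one_ne_zero
    · rw [h, hQ, div_zero, map_zero, zero_div]
  · exact ⟨P, Q, fun h0 => hQ (by rw [h0, map_zero]), hQ, h⟩

theorem aeval_ne_zero {x : R} (hx : RatF κ x) {P : κ[X]} (hP : P ≠ 0) : aeval x P ≠ 0 := by
  intro h
  exact hP ((transcendental_iff.1 hx.trans) P h)

/-- the trace on `κ(x)` of a prolongation of the Gauss valuation -/
theorem gauss_trace {x : R} (hx : RatF κ x) (V : ValuationSubring κ) (z : R) :
    ∃ c : κ, ∀ O : ValuationSubring M, Gauss V (algebraMap R M x) O →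
      (algebraMap R M z ∈ O ↔ c ∈ V) := by
  obtain ⟨P, Q, hQ, hQ', rfl⟩ := exists_frac hx z
  by_cases hP : P = 0
  · refine ⟨0, fun O _ => ?_⟩
    rw [hP, map_zero, zero_div, map_zero]
    exact ⟨fun _ => V.zero_mem, fun _ => O.zero_mem⟩
  obtain ⟨c, hc, P₁, rfl, hP₁⟩ := exists_content V hP
  obtain ⟨d, hd, Q₁, rfl, hQ₁⟩ := exists_content V hQ
  refine ⟨c / d, fun O hO => ?_⟩
  have h1 := hO.2 P₁ hP₁.1 hP₁.2
  have h2 := hO.2 Q₁ hQ₁.1 hQ₁.2
  rw [← hO.1 (c / d)]
  have h3 : algebraMap R M (aeval x (C c * P₁) / aeval x (C d * Q₁)) =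
      aeval (algebraMap R M x) P₁ * ((aeval (algebraMap R M x) Q₁)⁻¹ *
        algebraMap κ M (c / d)) := by
    rw [map_div₀, map_mul, map_mul, map_mul, map_mul, aeval_C, aeval_C,
      aeval_algebraMap_apply, aeval_algebraMap_apply, ← IsScalarTower.algebraMap_apply,
      ← IsScalarTower.algebraMap_apply, map_div₀]
    field_simp
  rw [h3, IsU.mul_mem_iff h1, IsU.mul_mem_iff (IsU.inv h2)]

/-- two prolongations of the Gauss valuation are conjugate -/
theorem gauss_conj (hconj : S_CONJ) [Normal R M] {x : R} (hx : RatF κ x) (V : ValuationSubring κ)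
    {O O' : ValuationSubring M} (hO : Gauss V (algebraMap R M x) O)
    (hO' : Gauss V (algebraMap R M x) O') :
    ∃ γ : M ≃ₐ[R] M, ∀ z, z ∈ O' ↔ γ z ∈ O := by
  apply hconj R M O O'
  ext z
  obtain ⟨c, hc⟩ := gauss_trace (M := M) hx V z
  rw [ValuationSubring.mem_comap, ValuationSubring.mem_comap, hc O hO, hc O' hO']

end gauss

/-- existence of places above a point -/
theorem exists_place {ℓ : ℕ} {κ R M : Type} [Field κ] [Field R] [Field M] [Algebra κ R]
    [Algebra R M] [Algebra κ M] [IsScalarTower κ R M] {x : R} {B : Finset κ} {Y : M}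
    (h : Cov ℓ κ R M x B Y) (b : κ) :
    ∃ W : Place κ M, 0 < W.ord (algebraMap R M x - algebraMap κ M b) := by
  have hinj : Function.Injective (aeval (algebraMap R M x) : κ[X] →ₐ[κ] M) := by
    rw [injective_iff_map_eq_zero]
    intro P hP
    rw [aeval_algebraMap_apply, map_eq_zero] at hP
    exact (transcendental_iff.1 h.rat.trans) P hP
  let A : Subring M := (aeval (algebraMap R M x) : κ[X] →ₐ[κ] M).toRingHom.range
  let t : A := ⟨aeval (algebraMap R M x) (X - C b), ⟨X - C b, rfl⟩⟩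
  have ht : ¬ IsUnit t := by
    rintro ⟨u, hu⟩
    obtain ⟨Q, hQ⟩ := (u⁻¹ : Aˣ).1.2
    have h1 : (t : M) * (u⁻¹ : Aˣ).1.1 = 1 := by
      have : (u.1 : A) * (u⁻¹ : Aˣ).1 = 1 := u.mul_inv
      rw [hu] at this
      exact congrArg Subtype.val this
    have h2 : aeval (algebraMap R M x) ((X - C b) * Q) = aeval (algebraMap R M x) (1 : κ[X]) := by
      rw [map_mul, map_one, ← h1]
      congr 1
    have h3 := hinj h2
    have h4 : IsUnit (X - C b) := IsUnit.of_mul_eq_one _ h3
    exact Polynomial.not_isUnit_X_sub_C b h4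
  obtain ⟨V, hAV, hV⟩ := Ideal.image_subset_nonunits_valuationSubring (Ideal.span {t})
    (by rwa [Ne, Ideal.span_singleton_eq_top])
  have ht2 : (t : M) ∈ V.nonunits := hV ⟨t, Ideal.mem_span_singleton_self t, rfl⟩
  have ht3 : (t : M) = algebraMap R M x - algebraMap κ M b := by
    change aeval (algebraMap R M x) (X - C b) = _
    rw [map_sub, aeval_X, aeval_C]
  have hκ : ∀ c : κ, algebraMap κ M c ∈ V := by
    intro c
    apply hAV
    exact ⟨C c, by
      change aeval (algebraMap R M x) (C c) = _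
      rw [aeval_C]⟩
  have ht0 : (t : M) ≠ 0 := by
    intro h0
    change aeval (algebraMap R M x) (X - C b) = 0 at h0
    have h1 := (injective_iff_map_eq_zero _).1 hinj _ h0
    exact X_sub_C_ne_zero b h1
  have hVt : V ≠ ⊤ := by
    intro hV
    rw [hV, ValuationSubring.mem_nonunits_iff_or] at ht2
    rcases ht2 with h1 | h1
    · exact ht0 h1
    · exact h1 (ValuationSubring.mem_top _)
  obtain ⟨W, hW, -⟩ := h.loc V hκ hVt
  refine ⟨W, ?_⟩
  rw [← ht3]
  by_contra hc
  have h1 : (t : M)⁻¹ ∈ W.O := by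
    rw [Place.mem_O, W.reg_iff (inv_ne_zero ht0), W.ord_inv]
    omega
  rw [hW] at h1
  rw [ValuationSubring.mem_nonunits_iff_or] at ht2
  rcases ht2 with h2 | h2
  · exact ht0 h2
  · exact h2 h1

end Pool.Agent.Y248.PS
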